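import Pool.Agent.H3.SH.StE

/-!
# SL FinLines: smooth septic hypersurfaces with finitely many lines

On top of project SH (note 5648).  If `X` (smooth, degree 7, at least 6 variables) contains only finitely many lines and has a `K`-point
`P`, then it has a `K`-point on no line of `X`: choose linear forms `l₁, l₂` without a common zero `≠ 0` on the finitely many lines; the five
forms `F (Q)`, `F_1 (P; Q)`, `F_2 (P; Q)`, `l₁ (Q)`, `l₂ (Q)` have a common zero `Q ≠ 0`, which is on no line, so `F (s P + Q) ≠ 0`; the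
density of the `K`-points with `F = F_1 (P; .) = F_2 (P; .) = 0` (stages A, B) and a product of linear forms vanishing on the lines and not
at `Q` give the point.
-/

set_option autoImplicit false

open MvPolynomial

namespace Pool.Agent.H83.SL

open Pool.Agent.H3.SH

/-- The set of the lines (two-dimensional subspaces) on which `F` vanishes. -/
def linesIn {K L : Type} [Field K] [Field L] [Algebra K L] {n : ℕ} (F : MvPolynomial (Fin n) K) : Set (Submodule L (Fin n → L)) :=
  {W | Module.finrank L W = 2 ∧ ∀ x ∈ W, aeval x F = 0}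

variable {K L : Type} [Field K] [Field L] [Algebra K L] {n : ℕ}

private theorem pt_inj {ι : Type} {p q : ι → K} (h : pt L p = pt L q) : p = q := by
  funext i
  exact (algebraMap K L).injective (congrFun h i)

private theorem aeval_pt {ι : Type} (q : ι → K) (F : MvPolynomial ι K) : aeval (pt L q) F = algebraMap K L (eval q F) := by
  have h : (aeval (pt L q) : MvPolynomial ι K →ₐ[K] L) = (Algebra.ofId K L).comp (aeval q) := by
    ext i
    simp [pt, Algebra.ofId_apply]
  rw [h]
  simp [Algebra.ofId_apply, MvPolynomial.aeval_eq_eval]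

private theorem exists_tan {A : Type} [Field A] [Algebra K A] {F : MvPolynomial (Fin n) K} (hF : F.IsHomogeneous 7) {x : Fin n → A}
    (h : ∃ i, aeval x (pderiv i F) ≠ 0) : ∃ c : Fin n → A, tan F x c = 1 := by
  classical
  obtain ⟨i, hi⟩ := h
  refine ⟨Pi.single i (aeval x (pderiv i F))⁻¹, ?_⟩
  rw [tan_eq hF, Finset.sum_eq_single i]
  · rw [Pi.single_eq_same, mul_inv_cancel₀ hi]
  · intro j _ hj
    rw [Pi.single_eq_of_ne hj, mul_zero]
  · intro h; exact absurd (Finset.mem_univ i) h

private theorem aeval_hom {ι A : Type} [CommRing A] [Algebra K A] {F : MvPolynomial ι K} (hF : F.IsHomogeneous 7) (x : ι → A) (s : A) :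
    aeval (fun i => s * x i) F = s ^ 7 * aeval x F := by
  rw [aeval_def, eval₂_eq, aeval_def, eval₂_eq, Finset.mul_sum]
  refine Finset.sum_congr rfl fun d hd => ?_
  have h1 : ∑ i ∈ d.support, d i = 7 := by
    have := hF (mem_support_iff.1 hd)
    simpa [Finsupp.weight_apply, Finsupp.sum] using this
  have h2 : ∏ i ∈ d.support, (s * x i) ^ d i = s ^ 7 * ∏ i ∈ d.support, x i ^ d i := by
    simp only [mul_pow]
    rw [Finset.prod_mul_distrib, Finset.prod_pow_eq_pow_sum, h1]
  rw [h2]
  ring

private theorem ln_zero_left {F : MvPolynomial (Fin n) K} [Infinite L] (y : Fin n → L) (h : aeval y F = 0) : ln F (fun _ => (0 : L)) y = 0 := by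
  apply Polynomial.funext
  intro s
  rw [eval_ln]
  simpa using h

private theorem onLine_of {F : MvPolynomial (Fin n) K} [Infinite L] (hF : F.IsHomogeneous 7) {x y : Fin n → L} (hx : aeval x F = 0)
    (h : ln F x y = 0) (a b : L) : aeval (a • x + b • y) F = 0 := by
  by_cases hb : b = 0
  · subst hb
    have h1 : a • x + (0 : L) • y = fun i => a * x i := by
      funext i
      simp
    rw [h1, aeval_hom hF, hx, mul_zero]
  · have h1 : a • x + b • y = fun i => b * ((a / b) * x i + y i) := by
      funext i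
      simp only [Pi.add_apply, Pi.smul_apply, smul_eq_mul]
      field_simp
    rw [h1, aeval_hom hF]
    have h2 := eval_ln F x y (a / b)
    rw [h, Polynomial.eval_zero] at h2
    rw [← h2, mul_zero]

/-- a linear form as a polynomial -/
private noncomputable def lf (φ : (Fin n → L) →ₗ[L] L) : MvPolynomial (Fin n) L := ∑ i, C (φ (Pi.single i 1)) * X i

private theorem eval_lf (φ : (Fin n → L) →ₗ[L] L) (x : Fin n → L) : eval x (lf φ) = φ x := by
  classical
  rw [LinearMap.pi_apply_eq_sum_univ φ x]
  simp only [lf, map_sum, map_mul, eval_C, eval_X, smul_eq_mul]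
  exact Finset.sum_congr rfl fun i _ => by
    rw [mul_comm]
    congr 2
    funext j
    simp [Pi.single_apply, eq_comm]

/-- a linear form which does not vanish at finitely many given vectors `≠ 0` -/
private theorem exists_form [Infinite L] (T : Finset (Fin n → L)) (h : ∀ w ∈ T, w ≠ 0) : ∃ φ : (Fin n → L) →ₗ[L] L, ∀ w ∈ T, φ w ≠ 0 := by
  classical
  set p : MvPolynomial (Fin n) L := ∏ w ∈ T, ∑ i, C (w i) * X i with hp
  have hne : p ≠ 0 := by
    rw [hp, Finset.prod_ne_zero_iff]
    intro w hw h0
    apply h w hw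
    funext i
    have h1 := congrArg (eval (Pi.single i (1 : L))) h0
    simpa [Pi.single_apply] using h1
  have hex : ∃ l : Fin n → L, eval l p ≠ 0 := by
    by_contra hcon
    push Not at hcon
    apply hne
    apply MvPolynomial.funext
    intro x
    rw [hcon x, map_zero]
  obtain ⟨l, hl⟩ := hex
  refine ⟨∑ i, l i • LinearMap.proj i, fun w hw h0 => hl ?_⟩
  rw [hp, map_prod]
  apply Finset.prod_eq_zero hw
  have h1 : ∑ i, l i * w i = 0 := by simpa using h0
  rw [← h1]
  simp only [map_sum, map_mul, eval_C, eval_X]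
  exact Finset.sum_congr rfl fun i _ => mul_comm _ _

private theorem mem_lines [Infinite L] {F : MvPolynomial (Fin n) K} {R : Fin n → L} (h : OnLine F R) : ∃ W ∈ linesIn (L := L) F, R ∈ W := by
  obtain ⟨v, hv, h0⟩ := h
  refine ⟨Submodule.span L {R, v}, ⟨?_, ?_⟩, Submodule.subset_span (by simp)⟩
  · have hli : LinearIndependent L ![R, v] := by
      rw [LinearIndependent.pair_iff]
      exact hv
    have h1 := finrank_span_eq_card hli
    have h2 : Set.range ![R, v] = {R, v} := by
      ext x
      simp only [Matrix.range_cons, Matrix.range_empty, Set.union_empty, Set.singleton_union]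
    rw [h2, Fintype.card_fin] at h1
    exact h1
  · intro x hx
    obtain ⟨a, b, rfl⟩ := Submodule.mem_span_pair.1 hx
    exact h0 a b

/-- two linear forms without a common zero `≠ 0` on finitely many lines -/
private theorem exists_forms [Infinite L] {𝒲 : Set (Submodule L (Fin n → L))} (hfin : 𝒲.Finite) (h2 : ∀ W ∈ 𝒲, Module.finrank L W = 2) :
    ∃ φ ψ : (Fin n → L) →ₗ[L] L, ∀ W ∈ 𝒲, ∀ x ∈ W, φ x = 0 → ψ x = 0 → x = 0 := by
  classical
  have hb : ∀ W ∈ 𝒲, ∃ a b : Fin n → L, a ∈ W ∧ b ∈ W ∧ (∀ s t : L, s • a + t • b = 0 → s = 0 ∧ t = 0) ∧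
      ∀ x ∈ W, ∃ s t : L, x = s • a + t • b := by
    intro W hW
    have : Module.Finite L W := Module.finite_of_finrank_pos (by rw [h2 W hW]; norm_num)
    let B := Module.finBasisOfFinrankEq L W (h2 W hW)
    refine ⟨B 0, B 1, (B 0).2, (B 1).2, ?_, ?_⟩
    · intro s t hst
      have h1 : s • B 0 + t • B 1 = 0 := by
        apply Subtype.ext
        simpa using hst
      have h3 := Fintype.linearIndependent_iff.1 B.linearIndependent ![s, t] (by simpa [Fin.sum_univ_two] using h1)
      exact ⟨by simpa using h3 0, by simpa using h3 1⟩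
    · intro x hx
      refine ⟨B.repr ⟨x, hx⟩ 0, B.repr ⟨x, hx⟩ 1, ?_⟩
      have h1 := B.sum_repr ⟨x, hx⟩
      rw [Fin.sum_univ_two] at h1
      have h3 := congrArg Subtype.val h1
      simpa using h3.symm
  choose! a b ha hb' hab hx using hb
  obtain ⟨φ, hφ⟩ := exists_form (hfin.toFinset.image a) (by
    intro w hw
    obtain ⟨W, hW, rfl⟩ := Finset.mem_image.1 hw
    intro h0
    have := hab W (hfin.mem_toFinset.1 hW) 1 0 (by rw [h0]; simp)
    exact one_ne_zero this.1)
  obtain ⟨ψ, hψ⟩ := exists_form (hfin.toFinset.image fun W => φ (b W) • a W - φ (a W) • b W) (by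
    intro w hw
    obtain ⟨W, hW, rfl⟩ := Finset.mem_image.1 hw
    intro h0
    have h1 := hab W (hfin.mem_toFinset.1 hW) (φ (b W)) (-φ (a W)) (by rw [neg_smul, ← sub_eq_add_neg]; exact h0)
    exact hφ (a W) (Finset.mem_image_of_mem a hW) (neg_eq_zero.1 h1.2))
  refine ⟨φ, ψ, ?_⟩
  intro W hW x hxW h1 h3
  obtain ⟨s, t, rfl⟩ := hx W hW x hxW
  have hφa : φ (a W) ≠ 0 := hφ (a W) (Finset.mem_image_of_mem a (hfin.mem_toFinset.2 hW))
  have hψw := hψ _ (Finset.mem_image_of_mem (fun W => φ (b W) • a W - φ (a W) • b W) (hfin.mem_toFinset.2 hW))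
  simp only [map_add, map_smul, map_sub, smul_eq_mul] at h1 h3 hψw
  have ht : t = 0 := by
    have h4 : t * (φ (b W) * ψ (a W) - φ (a W) * ψ (b W)) = 0 := by linear_combination ψ (a W) * h1 - φ (a W) * h3
    rcases mul_eq_zero.1 h4 with h5 | h5
    · exact h5
    · exact absurd h5 hψw
  rw [ht, zero_mul, add_zero] at h1
  rcases mul_eq_zero.1 h1 with h5 | h5
  · rw [h5, ht]
    simp
  · exact absurd h5 hφa

/-- A smooth septic hypersurface in at least 6 variables with finitely many lines and a `K`-point has a `K`-point on no line. -/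
theorem exists_off_lines [CharZero K] [IsAlgClosed L] (hn : 6 ≤ n) (hR : Roots K L) {F : MvPolynomial (Fin n) K}
    (hF : F.IsHomogeneous 7) (hsm : Pool.Agent.H8.SD.Smooth L F) (hfin : (linesIn (L := L) F).Finite) {P : Fin n → K} (hP0 : P ≠ 0)
    (hP : eval P F = 0) : ∃ P' : Fin n → K, P' ≠ 0 ∧ eval P' F = 0 ∧ ¬ OnLine F (pt L P') := by
  classical
  have : Infinite L := IsAlgClosed.instInfinite
  by_contra hcon
  push Not at hcon
  have hPl : OnLine F (pt L P) := hcon P hP0 hP
  obtain ⟨W₀, hW₀, hPW₀⟩ := mem_lines hPl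
  have hPL : aeval (pt L P) F = 0 := by rw [aeval_pt, hP, map_zero]
  have hp0 : pt L P ≠ 0 := by
    intro h
    apply hP0
    apply pt_inj (L := L)
    rw [h]
    funext i
    simp [pt]
  obtain ⟨φ, ψ, hφψ⟩ := exists_forms hfin (fun W hW => hW.1)
  -- the five forms
  let A := MvPolynomial (Fin n) L
  have hA : ∀ (x : Fin n → L) (c : K), eval x (algebraMap K A c) = algebraMap K L c := by
    intro x c
    rw [IsScalarTower.algebraMap_apply K L A, MvPolynomial.algebraMap_eq, eval_C]
  let g : Fin 5 → MvPolynomial (Fin n) L := ![map (algebraMap K L) F, tan F (fun i => (C (pt L P i) : A)) (fun i => (X i : A)),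
    hes F (fun i => (C (pt L P i) : A)) (fun i => (X i : A)), lf φ, lf ψ]
  have e0 : ∀ x : Fin n → L, eval x (g 0) = aeval x F := by
    intro x
    simp [g, eval_map, aeval_def]
  have e1 : ∀ x : Fin n → L, eval x (g 1) = tan F (pt L P) x := by
    intro x
    have := map_tan (K := K) (eval x : A →+* L) (hA x) F (fun i => (C (pt L P i) : A)) (fun i => (X i : A))
    simpa [g] using this
  have e2 : ∀ x : Fin n → L, eval x (g 2) = hes F (pt L P) x := by
    intro x
    have := map_hes (K := K) (eval x : A →+* L) (hA x) F (fun i => (C (pt L P i) : A)) (fun i => (X i : A))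
    simpa [g] using this
  have e3 : ∀ x : Fin n → L, eval x (g 3) = φ x := fun x => eval_lf φ x
  have e4 : ∀ x : Fin n → L, eval x (g 4) = ψ x := fun x => eval_lf ψ x
  have z1 : ln F (fun _ => (0 : L)) (pt L P) = 0 := ln_zero_left _ hPL
  obtain ⟨Q, hQ0, hQ⟩ := exists_zero (L := L) (Fin n) (Fin 5) (by simpa using by omega) g (by
    intro k
    fin_cases k
    · show eval (0 : Fin n → L) (g 0) = 0
      rw [e0]
      have := coeff_ln_swap hF (fun _ => (0 : L)) (pt L P) (k := 7) le_rfl
      rw [z1, Polynomial.coeff_zero, Nat.sub_self, coeff_ln_zero] at this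
      exact this.symm
    · show eval (0 : Fin n → L) (g 1) = 0
      rw [e1]
      have := coeff_ln_swap hF (pt L P) (fun _ => (0 : L)) (k := 6) (by norm_num)
      rw [z1, Polynomial.coeff_zero] at this
      exact this
    · show eval (0 : Fin n → L) (g 2) = 0
      rw [e2]
      have := coeff_ln_swap hF (pt L P) (fun _ => (0 : L)) (k := 5) (by norm_num)
      rw [z1, Polynomial.coeff_zero] at this
      exact this
    · show eval (0 : Fin n → L) (g 3) = 0
      rw [e3, map_zero]
    · show eval (0 : Fin n → L) (g 4) = 0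
      rw [e4, map_zero])
  have q0 : aeval Q F = 0 := by rw [← e0]; exact hQ 0
  have q1 : tan F (pt L P) Q = 0 := by rw [← e1]; exact hQ 1
  have q2 : hes F (pt L P) Q = 0 := by rw [← e2]; exact hQ 2
  have q3 : φ Q = 0 := by rw [← e3]; exact hQ 3
  have q4 : ψ Q = 0 := by rw [← e4]; exact hQ 4
  -- `Q` is in none of the lines
  have hQW : ∀ W ∈ linesIn (L := L) F, Q ∉ W := fun W hW h => hQ0 (hφψ W hW Q h q3 q4)
  have q5 : ln F (pt L P) Q ≠ 0 := by
    intro h
    have hl : ∀ a b : L, aeval (a • pt L P + b • Q) F = 0 := fun a b => onLine_of hF hPL h a b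
    by_cases hind : ∀ a b : L, a • pt L P + b • Q = 0 → a = 0 ∧ b = 0
    · obtain ⟨W, hW, hQW'⟩ := mem_lines (F := F) (R := Q) ⟨pt L P, fun a b hab => by
        rw [add_comm] at hab
        exact (hind b a hab).symm, fun a b => by rw [add_comm]; exact hl b a⟩
      exact hQW W hW hQW'
    · push Not at hind
      obtain ⟨a, b, hab, hne⟩ := hind
      have hb : b ≠ 0 := by
        rintro rfl
        rw [zero_smul, add_zero] at hab
        rcases smul_eq_zero.1 hab with h1 | h1
        · exact hne h1 rfl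
        · exact hp0 h1
      apply hQW W₀ hW₀
      have h1 : Q = (-(a / b)) • pt L P := by
        have h2 : b • Q = (-a) • pt L P := by
          rw [neg_smul]
          exact eq_neg_of_add_eq_zero_right hab
        rw [show -(a / b) = b⁻¹ * (-a) by field_simp, mul_smul, ← h2, smul_smul, inv_mul_cancel₀ hb, one_smul]
      rw [h1]
      exact W₀.smul_mem _ hPW₀
  -- density
  have hc : ∃ c : Fin n → K, tan F P c = 1 := by
    apply exists_tan hF
    obtain ⟨i, hi⟩ := hsm (pt L P) hp0
    refine ⟨i, ?_⟩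
    rw [aeval_pt] at hi
    intro h
    apply hi
    rw [MvPolynomial.aeval_eq_eval] at h
    rw [show eval P (pderiv i F) = 0 from h, map_zero]
  have hcL : ∃ c : Fin n → L, tan F (pt L P) c = 1 := exists_tan hF (hsm _ hp0)
  have d0 : Dense (WK L F {pt L P}) (WL F {pt L P}) := by
    by_cases hfl : ∀ a : Fin n → L, tan F (pt L P) a = 0 → hes F (pt L P) a = 0
    · exact stP hF hc hfl
    · push Not at hfl
      apply stC hR hF
      · rintro Q rfl
        exact ⟨P, rfl⟩
      · intro f hf z hz
        exact hf z hz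
      · rintro Q rfl
        exact ⟨hcL, hfl⟩
  have d1 : Dense (YK L F {pt L P}) (YL F {pt L P}) := by
    apply stB hR hF _ d0
    intro q hq
    rw [pt_inj (L := L) (show pt L q = pt L P from hq)]
    exact hP
  -- linear forms vanishing on the lines and not at `Q`
  have hsep : ∀ W ∈ linesIn (L := L) F, ∃ χ : (Fin n → L) →ₗ[L] L, χ Q ≠ 0 ∧ ∀ x ∈ W, χ x = 0 := by
    intro W hW
    obtain ⟨χ, h1, h2⟩ := Submodule.exists_dual_map_eq_bot_of_notMem (hQW W hW) inferInstance
    refine ⟨χ, h1, fun x hx => ?_⟩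
    have h3 : χ x ∈ W.map χ := Submodule.mem_map_of_mem hx
    rw [h2] at h3
    exact (Submodule.mem_bot L).1 h3
  choose! χ hχ1 hχ2 using hsep
  set f : MvPolynomial (Fin n) L := ∏ W ∈ hfin.toFinset, lf (χ W) with hf
  have ev : ∀ (f : MvPolynomial (Fin n) L) (a b : Fin n → L), eval (Sum.elim a b) (rename Sum.inr f) = eval b f := by
    intro f a b
    rw [eval_rename]
    rfl
  have hfQ : eval Q f ≠ 0 := by
    rw [hf, map_prod, Finset.prod_ne_zero_iff]
    intro W hW
    rw [eval_lf]
    exact hχ1 W (hfin.mem_toFinset.1 hW)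
  apply hfQ
  rw [← ev f (pt L P) Q]
  refine d1 (rename Sum.inr f) ?_ _ ⟨pt L P, Q, rfl, q1, q2, q0, q5, rfl⟩
  rintro z ⟨q, u, -, -, -, hu, rfl⟩
  rw [ev, hf, map_prod]
  have hW : ∃ W ∈ linesIn (L := L) F, pt L u ∈ W := by
    by_cases hu0 : u = 0
    · refine ⟨W₀, hW₀, ?_⟩
      have : pt L u = 0 := by
        rw [hu0]
        funext i
        simp [pt]
      rw [this]
      exact W₀.zero_mem
    · exact mem_lines (hcon u hu0 hu)
  obtain ⟨W, hW, huW⟩ := hW
  apply Finset.prod_eq_zero (hfin.mem_toFinset.2 hW)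
  rw [eval_lf]
  exact hχ2 W hW _ huW

end Pool.Agent.H83.SL
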